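import Pool.Agent.Lib.MP_571595_lc.H12.Cone

/-!
Mortality of sets of 2×2 integer matrices whose nonsingular members have entries of one sign and
dominate their determinant: a bound for the length of a shortest zero product.
-/

set_option autoImplicit false

namespace Pool.Agent.Results.MP_571595_lc.ConeMortality

theorem result (F : Set (Matrix (Fin 2) (Fin 2) ℤ)) (v w : Fin 2 → ℕ)
    (hv : ∀ i, 0 < v i) (hw : ∀ i, 0 < w i) (H : ℕ)
    (hS : ∀ A ∈ F, A.det = 0 → ∀ i j, |A i j| ≤ (H : ℤ))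
    (hN : ∀ A ∈ F, A.det ≠ 0 →
      (∀ i j k l, 0 ≤ A i j * A k l) ∧
      (∀ i, |A.det| * (v i : ℤ) ≤ |A i 0| * (v 0 : ℤ) + |A i 1| * (v 1 : ℤ)) ∧
      (∀ j, |A.det| * (w j : ℤ) ≤ (w 0 : ℤ) * |A 0 j| + (w 1 : ℤ) * |A 1 j|))
    (hM : ∃ l : List (Matrix (Fin 2) (Fin 2) ℤ), l ≠ [] ∧ (∀ A ∈ l, A ∈ F) ∧ l.prod = 0) :
    ∃ l : List (Matrix (Fin 2) (Fin 2) ℤ), l ≠ [] ∧ (∀ A ∈ l, A ∈ F) ∧ l.prod = 0 ∧
      l.length ≤ (2 * (H * max (v 0 + v 1) (w 0 + w 1)) + 1) ^ 2 + 1 := by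
  apply Pool.Agent.MP_571595_lc.H12.mortal_cone F (fun i => (v i : ℤ)) (fun i => (w i : ℤ))
    (fun i => by exact_mod_cast hv i) (fun i => by exact_mod_cast hw i) H
    (H * max (v 0 + v 1) (w 0 + w 1)) _ _ hS (fun A hA h => hN A hA h) hM
  · have : (v 0 + v 1) * H ≤ H * max (v 0 + v 1) (w 0 + w 1) := by
      rw [mul_comm]
      exact Nat.mul_le_mul_left _ (le_max_left _ _)
    exact_mod_cast this
  · have : (w 0 + w 1) * H ≤ H * max (v 0 + v 1) (w 0 + w 1) := by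
      rw [mul_comm]
      exact Nat.mul_le_mul_left _ (le_max_right _ _)
    exact_mod_cast this

end Pool.Agent.Results.MP_571595_lc.ConeMortality
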