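import Pool.Agent.Lib.MP_571595_lc.H41.Lines

/-!
MORTALITY(2) is undecidable, also for sets of exactly `m` matrices (every large `m`), also with all
matrices fixed and nonsingular except one of rank one; the reachability of lines.
-/

set_option autoImplicit false

namespace Pool.Agent.Results.MP_571595_lc.FixedMatrices

open Matrix

/-- Integer matrices with two rows and two columns. -/
abbrev Mat : Type := Matrix (Fin 2) (Fin 2) ℤ

/-- The zero matrix is a product of `k ≥ 1` members of `F`. -/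
def Mortal (F : Set Mat) : Prop :=
  ∃ l : List Mat, l ≠ [] ∧ (∀ A ∈ l, A ∈ F) ∧ l.prod = 0

/-- The matrix with rows `(a, b)` and `(c, d)`. -/
def mat (x : ℤ × ℤ × ℤ × ℤ) : Mat := !![x.1, x.2.1; x.2.2.1, x.2.2.2]

/-- The finite set of matrices given by a list. -/
def matrices (L : List (ℤ × ℤ × ℤ × ℤ)) : Set Mat := {A | ∃ x ∈ L, mat x = A}

/-- The line through the origin of `ℂ²` spanned by an integer vector. -/
def line (v : Fin 2 → ℤ) : Submodule ℂ (Fin 2 → ℂ) := Submodule.span ℂ {fun i => (v i : ℂ)}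

/-- Some product of `k ≥ 1` members of `H` sends the line of `v` onto the line of `u`. -/
def SendsLine (H : Finset Mat) (v u : Fin 2 → ℤ) : Prop :=
  ∃ l : List Mat, l ≠ [] ∧ (∀ A ∈ l, A ∈ H) ∧
    (line v).map (Matrix.toLin' (l.prod.map (Int.cast : ℤ → ℂ))) = line u

open Pool.Agent.Lib.MP_571595_lc.MORT Pool.Agent.Lib.MP_571595_lc.H41

/-- Adding scalar matrices. -/
theorem scalars {ι : Type} [Fintype ι] (Z : ι → Mat) (hZ : ∀ i, (Z i).det ≠ 0) :
    ∃ c : ℕ, ∀ r : ℕ, 1 ≤ r → ∃ H : Finset Mat, H.card = c + r ∧ (∀ A ∈ H, A.det ≠ 0) ∧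
      (∃ k : ℤ, k ≠ 0 ∧ k • (1 : Mat) ∈ H) ∧
      ∀ v w : Fin 2 → ℤ, (∃ l : List Mat, (∀ A ∈ l, A ∈ H) ∧ w ⬝ᵥ (l.prod *ᵥ v) = 0) ↔
        ∃ u : List ι, w ⬝ᵥ ((u.map Z).prod *ᵥ v) = 0 := by
  classical
  obtain ⟨K, hK⟩ : ∃ K : ℕ, ∀ i, Z i 0 0 < K := by
    refine ⟨∑ i, (Z i 0 0).natAbs + 1, fun i => ?_⟩
    have h1 : (Z i 0 0).natAbs ≤ ∑ j, (Z j 0 0).natAbs :=
      Finset.single_le_sum (f := fun j => (Z j 0 0).natAbs) (fun _ _ => Nat.zero_le _)
        (Finset.mem_univ i)
    omega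
  let S : ℕ → Mat := fun j => ((K + 1 + j : ℕ) : ℤ) • (1 : Mat)
  have hS00 : ∀ j, S j 0 0 = ((K + 1 + j : ℕ) : ℤ) := by
    intro j
    change (((K + 1 + j : ℕ) : ℤ) • (1 : Mat)) 0 0 = _
    rw [Matrix.smul_apply, Matrix.one_apply_eq, smul_eq_mul, mul_one]
  have hSinj : Function.Injective S := by
    intro i j h
    have h1 := congrFun (congrFun h 0) 0
    rw [hS00, hS00] at h1
    omega
  refine ⟨(Finset.univ.image Z).card, fun r hr =>
    ⟨Finset.univ.image Z ∪ (Finset.range r).image S, ?_, ?_, ?_, ?_⟩⟩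
  · rw [Finset.card_union_of_disjoint, Finset.card_image_of_injective (Finset.range r) hSinj,
      Finset.card_range]
    rw [Finset.disjoint_left]
    intro A hA hA'
    rw [Finset.mem_image] at hA hA'
    obtain ⟨i, _, rfl⟩ := hA
    obtain ⟨j, _, hj⟩ := hA'
    have h1 := congrFun (congrFun hj 0) 0
    rw [hS00] at h1
    have h2 := hK i
    rw [← h1] at h2
    push_cast at h2
    omega
  · intro A hA
    rw [Finset.mem_union, Finset.mem_image, Finset.mem_image] at hA
    rcases hA with ⟨i, _, rfl⟩ | ⟨j, _, rfl⟩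
    · exact hZ i
    · simp only [S, Matrix.det_smul, Matrix.det_one, mul_one, Fintype.card_fin]
      apply pow_ne_zero
      exact_mod_cast (by omega : K + 1 + j ≠ 0)
  · refine ⟨((K + 1 + 0 : ℕ) : ℤ), by exact_mod_cast (by omega : K + 1 + 0 ≠ 0), ?_⟩
    rw [Finset.mem_union, Finset.mem_image, Finset.mem_image]
    exact Or.inr ⟨0, by rw [Finset.mem_range]; omega, rfl⟩
  · intro v w
    constructor
    · rintro ⟨l, hl, h⟩
      have key : ∀ l : List Mat, (∀ A ∈ l, A ∈ Finset.univ.image Z ∪ (Finset.range r).image S) →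
          ∃ (u : List ι) (k : ℤ), k ≠ 0 ∧ l.prod = k • (u.map Z).prod := by
        intro l
        induction l with
        | nil => exact fun _ => ⟨[], 1, one_ne_zero, by simp⟩
        | cons A l ih =>
          intro hl
          obtain ⟨u, k, hk, hu⟩ := ih (fun B hB => hl B (List.mem_cons_of_mem _ hB))
          have hA := hl A List.mem_cons_self
          rw [Finset.mem_union, Finset.mem_image, Finset.mem_image] at hA
          rcases hA with ⟨i, _, rfl⟩ | ⟨j, _, rfl⟩
          · exact ⟨i :: u, k, hk, by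
              rw [List.prod_cons, hu, Matrix.mul_smul, List.map_cons, List.prod_cons]⟩
          · refine ⟨u, ((K + 1 + j : ℕ) : ℤ) * k, mul_ne_zero ?_ hk, ?_⟩
            · exact_mod_cast (by omega : K + 1 + j ≠ 0)
            · rw [List.prod_cons, hu, mul_smul]
              simp only [S]
              rw [Matrix.smul_mul, Matrix.one_mul]
      obtain ⟨u, k, hk, hu⟩ := key l hl
      refine ⟨u, ?_⟩
      rw [hu, Matrix.smul_mulVec, dotProduct_smul, smul_eq_mul] at h
      exact (mul_eq_zero.mp h).resolve_left hk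
    · rintro ⟨u, hu⟩
      refine ⟨u.map Z, ?_, hu⟩
      intro A hA
      rw [List.mem_map] at hA
      obtain ⟨i, _, rfl⟩ := hA
      rw [Finset.mem_union, Finset.mem_image]
      exact Or.inl ⟨i, Finset.mem_univ _, rfl⟩

/-- Sending lines onto lines. -/
theorem sendsLine_iff (H : Finset Mat) (hH : ∀ A ∈ H, A.det ≠ 0)
    (hk : ∃ k : ℤ, k ≠ 0 ∧ k • (1 : Mat) ∈ H) (v w : Fin 2 → ℤ) (hv : v ≠ 0) (hw : w ≠ 0) :
    SendsLine H v ![-w 1, w 0] ↔
      ∃ l : List Mat, (∀ A ∈ l, A ∈ H) ∧ w ⬝ᵥ (l.prod *ᵥ v) = 0 := by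
  have hdet : ∀ l : List Mat, (∀ A ∈ l, A ∈ H) → l.prod.det ≠ 0 := by
    intro l
    induction l with
    | nil => simp
    | cons A l ih =>
      intro hl
      rw [List.prod_cons, Matrix.det_mul]
      exact mul_ne_zero (hH A (hl A List.mem_cons_self))
        (ih fun B hB => hl B (List.mem_cons_of_mem _ hB))
  have hu : (![-w 1, w 0] : Fin 2 → ℤ) ≠ 0 := by
    intro h
    apply hw
    have h0 := congrFun h 0
    have h1 := congrFun h 1
    simp at h0 h1
    funext i
    fin_cases i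
    · exact h1
    · exact h0
  have hline : ∀ l : List Mat, (∀ A ∈ l, A ∈ H) →
      ((line v).map (Matrix.toLin' (l.prod.map (Int.cast : ℤ → ℂ))) = line ![-w 1, w 0] ↔
        w ⬝ᵥ (l.prod *ᵥ v) = 0) := by
    intro l hl
    unfold line
    rw [line_map, line_eq_iff _ _ _ hu]
    · simp only [dotProduct, Fin.sum_univ_two, Matrix.cons_val_zero, Matrix.cons_val_one]
      constructor
      · intro h
        linear_combination h
      · intro h
        linear_combination h
    · intro h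
      exact hv (Matrix.eq_zero_of_mulVec_eq_zero (hdet l hl) h)
  constructor
  · rintro ⟨l, _, hl, h⟩
    exact ⟨l, hl, (hline l hl).1 h⟩
  · rintro ⟨l, hl, h⟩
    obtain ⟨k, _, hkH⟩ := hk
    have hl' : ∀ A ∈ (k • (1 : Mat)) :: l, A ∈ H := by
      intro A hA
      rw [List.mem_cons] at hA
      rcases hA with rfl | hA
      · exact hkH
      · exact hl A hA
    refine ⟨(k • (1 : Mat)) :: l, by simp, hl', (hline _ hl').2 ?_⟩
    rw [List.prod_cons, Matrix.smul_mul, Matrix.one_mul, Matrix.smul_mulVec, dotProduct_smul, h,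
      smul_zero]

/-- **MORTALITY(2) is undecidable.** -/
theorem result :
    (¬ ComputablePred fun L : List (ℤ × ℤ × ℤ × ℤ) => Mortal (matrices L)) ∧
    ∃ m₀ : ℕ, ∀ m : ℕ, m₀ ≤ m →
      (¬ ∃ f : List (ℤ × ℤ × ℤ × ℤ) → Bool, Computable f ∧
        ∀ L : List (ℤ × ℤ × ℤ × ℤ), L.Nodup → L.length = m →
          (f L = true ↔ Mortal (matrices L))) ∧
      ∃ (H : Finset Mat) (v : Fin 2 → ℤ), H.card + 1 = m ∧ (∀ A ∈ H, A.det ≠ 0) ∧ v ≠ 0 ∧
        (¬ ∃ f : ℤ × ℤ → Bool, Computable f ∧ ∀ w : ℤ × ℤ, w ≠ 0 →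
          (f w = true ↔ Mortal (insert (vecMulVec v ![w.1, w.2]) (H : Set Mat)))) ∧
        (¬ ∃ f : ℤ × ℤ → Bool, Computable f ∧ ∀ u : ℤ × ℤ, u ≠ 0 →
          (f u = true ↔ SendsLine H v ![u.1, u.2])) ∧
        ∀ p : ℕ → Prop, REPred p → ∃ w : ℕ → ℤ × ℤ, Computable w ∧ ∀ n : ℕ, w n ≠ 0 ∧
          (p n ↔ Mortal (insert (vecMulVec v ![(w n).1, (w n).2]) (H : Set Mat))) ∧
          (p n ↔ SendsLine H v ![-(w n).2, (w n).1]) := by
  classical
  obtain ⟨ι, _, Z, v, α, β, a, b, hdet, hv, ht, hcore⟩ := core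
  obtain ⟨c, hc⟩ := scalars Z hdet
  obtain ⟨f₀, hf₀, hf₀'⟩ := H21.exists_undecidable
  have hre : REPred fun n => (f₀ n).Dom := Partrec.dom_re hf₀
  -- the vector as a pair
  let wt : ℕ → ℤ × ℤ := fun N => (tgt α β a b N 0, tgt α β a b N 1)
  have hwt : ∀ N, (![(wt N).1, (wt N).2] : Fin 2 → ℤ) = tgt α β a b N := by
    intro N
    funext i
    fin_cases i <;> rfl
  have hwt0 : ∀ N, wt N ≠ 0 := by
    intro N h
    apply ht N
    rw [← hwt N, h]
    funext i
    fin_cases i <;> rfl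
  have hwtc : Primrec wt :=
    (H21.lin_primrec α β (a 0) (b 0)).pair (H21.lin_primrec α β (a 1) (b 1))
  -- the main facts for the sets `H`
  have main : ∀ m, c + 2 ≤ m → ∃ H : Finset Mat, H.card + 1 = m ∧ (∀ A ∈ H, A.det ≠ 0) ∧
      (∀ N, Mortal (insert (vecMulVec v (tgt α β a b N)) (H : Set Mat)) ↔
        ∃ u : List ι, tgt α β a b N ⬝ᵥ ((u.map Z).prod *ᵥ v) = 0) ∧
      (∀ N, SendsLine H v ![-tgt α β a b N 1, tgt α β a b N 0] ↔
        ∃ u : List ι, tgt α β a b N ⬝ᵥ ((u.map Z).prod *ᵥ v) = 0) := by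
    intro m hm
    obtain ⟨H, h1, h2, h3, h4⟩ := hc (m - c - 1) (by omega)
    refine ⟨H, by omega, h2, ?_, ?_⟩
    · intro N
      rw [← h4]
      exact mortal_iff H h2 v _ hv (ht N)
    · intro N
      rw [← h4]
      exact sendsLine_iff H h2 h3 v _ hv (ht N)
  -- lists of exactly `m` matrices
  have exact_m : ∀ m, c + 2 ≤ m → ¬ ∃ f : List (ℤ × ℤ × ℤ × ℤ) → Bool, Computable f ∧
      ∀ L : List (ℤ × ℤ × ℤ × ℤ), L.Nodup → L.length = m →
        (f L = true ↔ Mortal (matrices L)) := by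
    rintro m hm ⟨f, hf, hf'⟩
    obtain ⟨H, hcard, hH, hM, _⟩ := main m hm
    obtain ⟨N, hN, hp⟩ := hcore _ hre
    let q : Mat → ℤ × ℤ × ℤ × ℤ := fun A => (A 0 0, A 0 1, A 1 0, A 1 1)
    have hq : ∀ A, mat (q A) = A := fun A => (Matrix.eta_fin_two A).symm
    have hqinj : Function.Injective q := fun A B h => by rw [← hq A, h, hq B]
    let A₀ : Fin 4 → ℤ := ![v 0 * a 0, v 0 * a 1, v 1 * a 0, v 1 * a 1]
    let B₀ : Fin 4 → ℤ := ![v 0 * b 0, v 0 * b 1, v 1 * b 0, v 1 * b 1]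
    have hlast : ∀ k, lastM α β A₀ B₀ k = q (vecMulVec v (tgt α β a b k)) := by
      intro k
      unfold lastM
      refine Prod.ext ?_ (Prod.ext ?_ (Prod.ext ?_ ?_))
      · change v 0 * a 0 * _ + v 0 * b 0 * _ = v 0 * (a 0 * _ + b 0 * _)
        ring
      · change v 0 * a 1 * _ + v 0 * b 1 * _ = v 0 * (a 1 * _ + b 1 * _)
        ring
      · change v 1 * a 0 * _ + v 1 * b 0 * _ = v 1 * (a 0 * _ + b 0 * _)
        ring
      · change v 1 * a 1 * _ + v 1 * b 1 * _ = v 1 * (a 1 * _ + b 1 * _)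
        ring
    let L : List (ℤ × ℤ × ℤ × ℤ) := H.toList.map q
    have hset : ∀ k, matrices (L ++ [lastM α β A₀ B₀ k]) =
        insert (vecMulVec v (tgt α β a b k)) (H : Set Mat) := by
      intro k
      ext A
      simp only [matrices, Set.mem_setOf_eq, Set.mem_insert_iff, Finset.mem_coe]
      constructor
      · rintro ⟨x, hx, rfl⟩
        rw [List.mem_append, List.mem_singleton, List.mem_map] at hx
        rcases hx with ⟨B, hB, rfl⟩ | rfl
        · rw [hq]
          exact Or.inr (Finset.mem_toList.1 hB)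
        · rw [hlast, hq]
          exact Or.inl rfl
      · rintro (rfl | hA)
        · exact ⟨_, List.mem_append_right _ (List.mem_singleton.2 (hlast k).symm), hq _⟩
        · exact ⟨q A, List.mem_append_left _ (List.mem_map_of_mem (Finset.mem_toList.2 hA)), hq A⟩
    have hnd : ∀ k, (L ++ [lastM α β A₀ B₀ k]).Nodup := by
      intro k
      rw [List.nodup_append]
      refine ⟨(Finset.nodup_toList H).map hqinj, List.nodup_singleton _, ?_⟩
      intro x hx y hy hxy
      rw [List.mem_singleton] at hy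
      subst hxy
      rw [hy, hlast, List.mem_map] at hx
      obtain ⟨B, hB, hB'⟩ := hx
      have h1 := hH B (Finset.mem_toList.1 hB)
      rw [hqinj hB'] at h1
      apply h1
      rw [Matrix.det_fin_two]
      simp only [vecMulVec_apply]
      ring
    have hlen : ∀ k, (L ++ [lastM α β A₀ B₀ k]).length = m := by
      intro k
      simp only [L, List.length_append, List.length_map, Finset.length_toList, List.length_singleton]
      exact hcard
    apply hf₀'
    refine ComputablePred.computable_iff.2 ⟨fun n => f (L ++ [lastM α β A₀ B₀ (N n)]),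
      hf.comp (H21.comp L α β A₀ B₀ N hN), ?_⟩
    funext n
    rw [eq_iff_iff, hf' _ (hnd _) (hlen _), hset, hM, ← hp n]
  refine ⟨?_, c + 2, ?_⟩
  · intro h
    obtain ⟨f, hf, hf'⟩ := ComputablePred.computable_iff.1 h
    exact exact_m (c + 2) le_rfl ⟨f, hf, fun L _ _ => by
      have := congrFun hf' L
      rw [eq_iff_iff] at this
      exact this.symm⟩
  intro m hm
  refine ⟨exact_m m hm, ?_⟩
  obtain ⟨H, hcard, hH, hM, hS⟩ := main m hm
  refine ⟨H, v, hcard, hH, hv, ?_, ?_, ?_⟩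
  · rintro ⟨f, hf, hf'⟩
    obtain ⟨N, hN, hp⟩ := hcore _ hre
    apply hf₀'
    refine ComputablePred.computable_iff.2 ⟨fun n => f (wt (N n)),
      hf.comp (hwtc.to_comp.comp hN), ?_⟩
    funext n
    rw [eq_iff_iff, hf' _ (hwt0 _), hwt, hM, ← hp n]
  · rintro ⟨f, hf, hf'⟩
    obtain ⟨N, hN, hp⟩ := hcore _ hre
    let ut : ℕ → ℤ × ℤ := fun N => (tgt α β (fun i => -a i) (fun i => -b i) N 1, tgt α β a b N 0)
    have hut : ∀ N, (![(ut N).1, (ut N).2] : Fin 2 → ℤ) =
        ![-tgt α β a b N 1, tgt α β a b N 0] := by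
      intro N
      have h1 : tgt α β (fun i => -a i) (fun i => -b i) N 1 = -tgt α β a b N 1 := by
        unfold tgt
        ring
      simp only [ut, h1]
    have hut0 : ∀ N, ut N ≠ 0 := by
      intro N h
      apply hwt0 N
      have h1 := congrFun (hut N) 0
      have h2 := congrFun (hut N) 1
      rw [h] at h1 h2
      simp at h1 h2
      exact Prod.ext h2.symm h1
    have hutc : Primrec ut :=
      (H21.lin_primrec α β (-a 1) (-b 1)).pair (H21.lin_primrec α β (a 0) (b 0))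
    apply hf₀'
    refine ComputablePred.computable_iff.2 ⟨fun n => f (ut (N n)),
      hf.comp (hutc.to_comp.comp hN), ?_⟩
    funext n
    rw [eq_iff_iff, hf' _ (hut0 _), hut, hS, ← hp n]
  · intro p hpre
    obtain ⟨N, hN, hp⟩ := hcore p hpre
    refine ⟨fun n => wt (N n), hwtc.to_comp.comp hN, fun n => ⟨hwt0 _, ?_, ?_⟩⟩
    · rw [hwt, hM, ← hp n]
    · change p n ↔ SendsLine H v ![-tgt α β a b (N n) 1, tgt α β a b (N n) 0]
      rw [hS, ← hp n]

end Pool.Agent.Results.MP_571595_lc.FixedMatrices
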