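import Pool.Agent.Lib.MP_571595_lc.H12.Rescale

/-!
Mortality of sets of 2×2 integer matrices whose nonsingular members are upper triangular and, at
every place, uniformly expanding or uniformly contracting: a bound for the length of a shortest
zero product.
-/

set_option autoImplicit false

namespace Pool.Agent.Results.MP_571595_lc.TriangularMortality

theorem result (F : Set (Matrix (Fin 2) (Fin 2) ℤ)) (H : ℕ)
    (hS : ∀ A ∈ F, ∀ i j, |A i j| ≤ (H : ℤ))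
    (hN : ∀ A ∈ F, A.det ≠ 0 → A 1 0 = 0)
    (hd : (∀ A ∈ F, A.det ≠ 0 → |A 1 1| < |A 0 0|) ∨ (∀ A ∈ F, A.det ≠ 0 → |A 0 0| < |A 1 1|))
    (hq : ∀ q : ℕ, q.Prime →
      (∀ A ∈ F, A.det ≠ 0 → padicValInt q (A 1 1) ≤ padicValInt q (A 0 0)) ∨
      (∀ A ∈ F, A.det ≠ 0 → padicValInt q (A 0 0) ≤ padicValInt q (A 1 1)))
    (hM : ∃ l : List (Matrix (Fin 2) (Fin 2) ℤ), l ≠ [] ∧ (∀ A ∈ l, A ∈ F) ∧ l.prod = 0) :
    ∃ l : List (Matrix (Fin 2) (Fin 2) ℤ), l ≠ [] ∧ (∀ A ∈ l, A ∈ F) ∧ l.prod = 0 ∧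
      l.length ≤ (2 * (H.factorial ^ 2 * H) ^ 3 + 1) ^ 2 + 1 :=
  Pool.Agent.MP_571595_lc.H12.mortal_tri_places F H hS hN hd hq hM

end Pool.Agent.Results.MP_571595_lc.TriangularMortality
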